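import Mathlib
import Pool.Agent.J4H21.SC.Para
import Pool.Agent.J4H21.CO.Final
import Pool.Agent.J4H21.CO.Vol
import Pool.Agent.J4H21.CO.Rad

set_option autoImplicit false

/-!
# MP_eba1ef_gt: cube-like images of uncovered symmetric bodies; finite cotype

Let `K` be any centrally symmetric convex body in `ℝ^d`, `d ≥ 2`, with the norm `g` and the
isotropic constant `L_K`. There are no other conditions, in particular no symmetries. We prove
that either `K` is covered by less than `2^d` translates of its interior or `K` has cube-like linear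
images, and we deduce that bodies of finite cotype are covered by less than `2^d`
translates of the interior if the dimension is large.

* Let `R = 10^8 log(d+1)^5 L_K`. If `(5R)^n ≤ 2^d` then either `c(K) < 2^d` or there
  is a linear map `p` to `ℝ^n` with `[-κ, κ]^n ⊆ p(K) ⊆ [-1, 1]^n` where `κ = 1/(9R)`. As `L_K` is
  bounded (this is the slicing conjecture, which was proved recently; we do not use it), here `n`
  can be of the order `d / log log d` and `1/κ` is of the order `log(d)^5`.
* If `10^18 n^4 log(d+1)^10 ≤ d` then the same holds with `1/κ = 4·10^9 log(d+1)^6`. So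
  there is always an image of a dimension of the order `d^(1/4) / log(d)^(5/2)`; the
  isotropic constant does not occur.
* If `g` has cotype `q ≥ 2` with the constant `C` then `c(K) < 2^d` if
  `(10^12 C log(d+1)^8)^(4q) ≤ d` or if `3 (120 C R log(d+1))^q log(5R) ≤ d`. The cube has cotype
  `q` with a constant of the order `d^(1/q)` and `c = 2^d`, so the second condition is the best
  possible one up to a polylogarithmic factor in `C` (and the isotropic constant).

The proof. In the first part we use the theorem `Parallelotope` (a file of ours for the same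
problem, its proof is in `Pool.Agent.J4H21.SC`): if `c(K) ≥ 2^d` then `K` lies in a parallelotope
`Q`, we may assume `Q = [-1, 1]^d`, with `|Q| ≤ R^d |K|`. The maps `x ↦ (x_i)_(i ∈ I)`, `|I| = n`,
are the candidates: we round every coordinate of the points of `K` to one of about `2R` values
and use a version of the Sauer-Shelah lemma for functions with more than two values: there are at
least `|K| / |cell|` values of the rounding, so that there is a set `I` of `n` coordinates, and
thresholds, such that all the `2^n` patterns with a gap occur. By the symmetry of `K` and its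
convexity the image of `K` under the projection contains the cube `[-κ, κ]^n`.

In the second part let `K` be in the isotropic position, `c(K) ≥ 2^d`. By the criterion
for sections (in `Pool.Agent.J4H21.SC`) every `k`-dimensional subspace contains a unit vector `x`
with a functional `φ` in the polar body such that `φ = φ(x) ⟨x, ·⟩` on the subspace and
`φ(x) ≥ c (k/d) / log(d)^5`. So there are orthonormal vectors `x_1, ..., x_N`, `N = ⌊d/2⌋`, with
functionals `φ_i`, `φ_i(x_i) ≥ c / log(d)^5`. Let `f_i(z) = ⟨x_i, z⟩ / L`, truncated,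
`L = C log d`. We use Riesz products `∏ (1 + δ_l f_(i_l)(z))` for random indices
`i_1, ..., i_m ≤ N` and signs `δ_l`. The average over the indices and signs of the squares of the
errors (of the masses, and of the barycenters) is small, because `1/N ∑ f_i(z) f_i(z')` is a linear
functional of `z'` with a small norm and has exponential tails. The barycenters are points of `K`.
With the Rademacher projection (its norm is `O(log d)`, Pisier) we get vectors `X_l` close to
`s x_(i_l)` with `E g(∑ ± X_l)² ≤ (88 log(d+1))²`, and `φ_(i_l)(X_k)` is small for `k ≠ l` and random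
indices since `∑_i φ(x_i)² ≤ 1` for every `φ` in the polar body. By the Sauer-Shelah lemma there
are half of the indices such that all the sign patterns occur on them.

In the third part, cube-like images and a lifting with the Rademacher projection give vectors
`x_1, ..., x_n` with `g(x_i) ≥ κ` and `E g(∑ ± x_i)² ≤ (13 log(d+1))²`. By the
cotype this is not possible if `n^(1/q) κ > 13 C log(d+1)`.

The theorem `SpreadFiniteCotype` of the starting files contains the second and the third part
under the condition that `K` is `D`-spread, `D ≥ n^4 polylog(d)`, which holds for bodies with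
many symmetries. Here no such condition is needed; the dimension `d / log log d` in the first part
and the exponent `1/q` in the second condition of the third part are new even in the case of many
symmetries.
-/

namespace Pool.Agent.Results.MP_eba1ef_gt.CubeLikeImages

open MeasureTheory

/-- The space `ℝ^d`. -/
abbrev Sp (d : ℕ) : Type := EuclideanSpace ℝ (Fin d)

/-- `K` is a centrally symmetric convex body. -/
def IsSymmBody {d : ℕ} (K : Set (Sp d)) : Prop :=
  Convex ℝ K ∧ IsCompact K ∧ (interior K).Nonempty ∧ ∀ x ∈ K, -x ∈ K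

/-- `K` is covered by less than `2^d` translates of its interior. -/
def CoveredByFewer {d : ℕ} (K : Set (Sp d)) : Prop :=
  ∃ T : Finset (Sp d), K ⊆ ⋃ t ∈ T, (fun x => t + x) '' interior K ∧ T.card < 2 ^ d

/-- `K` has a linear image in `ℝ^n` between `[-κ, κ]^n` and `[-1, 1]^n`. -/
def HasCubicImage {d : ℕ} (K : Set (Sp d)) (n : ℕ) (κ : ℝ) : Prop :=
  ∃ p : Sp d →L[ℝ] Sp n, (∀ y : Sp n, (∀ i, |y i| ≤ κ) → y ∈ p '' K) ∧ ∀ x ∈ K, ∀ i, |p x i| ≤ 1

/-- The mean square over all signs of the gauge of `± x_1 ± ... ± x_m`. -/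
noncomputable def signMean {d m : ℕ} (K : Set (Sp d)) (x : Fin m → Sp d) : ℝ :=
  (∑ δ : Fin m → Bool, gauge K (∑ i, (if δ i then (1 : ℝ) else -1) • x i) ^ 2) / 2 ^ m

/-- The gauge of `K` has cotype `q` with the constant `C`. -/
def HasCotype {d : ℕ} (K : Set (Sp d)) (q C : ℝ) : Prop :=
  ∀ (m : ℕ) (x : Fin m → Sp d), (∑ i, gauge K (x i) ^ q) ^ (1 / q) ≤ C * √(signMean K x)

/-- The determinant of the covariance matrix of `K`: the entries of the matrix are the averages
over `z ∈ K` of `z_i z_l`. -/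
noncomputable def covDet {d : ℕ} (K : Set (Sp d)) : ℝ :=
  Matrix.det (Matrix.of fun i l : Fin d => ⨍ z in K, z i * z l)

/-- The isotropic constant `L_K` of `K`. -/
noncomputable def isoConst {d : ℕ} (K : Set (Sp d)) : ℝ :=
  (√(covDet K) / (volume K).toReal) ^ (1 / (d : ℝ))

/-- `R = 10^8 log(d+1)^5 L_K`. -/
noncomputable def ratio {d : ℕ} (K : Set (Sp d)) : ℝ :=
  10 ^ 8 * Real.log (d + 1) ^ 5 * isoConst K

theorem saving5 (d : ℕ) (hd : 2 ≤ d) :
    17 * (d : ℝ) * Real.log (4 * d + 1) * Real.exp (-(5 * Real.log (d + 1))) ≤ 1 := by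
  have hd' : (2 : ℝ) ≤ d := by exact_mod_cast hd
  have h1 : Real.exp (-(5 * Real.log ((d : ℝ) + 1))) = 1 / ((d : ℝ) + 1) ^ 5 := by
    rw [Real.exp_neg, one_div]
    congr 1
    rw [show (5 : ℝ) * Real.log ((d : ℝ) + 1) = Real.log (((d : ℝ) + 1) ^ 5) by
      rw [Real.log_pow]; norm_num, Real.exp_log (by positivity)]
  have h2 : Real.log (4 * d + 1) ≤ 4 / 3 * (d + 1) := by
    have e1 : Real.log (4 * d + 1) = Real.log ((4 * d + 1) / 3) + Real.log 3 := by
      rw [← Real.log_mul (by positivity) (by norm_num)]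
      congr 1
      ring
    have e2 := Real.log_le_sub_one_of_pos (show (0 : ℝ) < (4 * d + 1) / 3 by positivity)
    have e3 : Real.log 3 ≤ 2 := by
      have := Real.log_le_sub_one_of_pos (show (0 : ℝ) < 3 by norm_num)
      linarith
    rw [e1]
    linarith
  have h3 : (27 : ℝ) ≤ (d + 1) ^ 3 := by
    calc (27 : ℝ) = (2 + 1) ^ 3 := by norm_num
      _ ≤ _ := by gcongr
  rw [h1, mul_one_div, div_le_one (by positivity)]
  calc 17 * (d : ℝ) * Real.log (4 * d + 1) ≤ 17 * d * (4 / 3 * (d + 1)) := by gcongr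
    _ ≤ 27 * (d + 1) * (d + 1) := by nlinarith
    _ ≤ (d + 1) ^ 3 * (d + 1) * (d + 1) := by gcongr
    _ = _ := by ring

theorem saving3 (d : ℕ) (hd : 67 ≤ d) :
    17 * (d : ℝ) * Real.log (4 * d + 1) * Real.exp (-(3 * Real.log (d + 1))) ≤ 1 := by
  have hd' : (67 : ℝ) ≤ d := by exact_mod_cast hd
  have h1 : Real.exp (-(3 * Real.log ((d : ℝ) + 1))) = 1 / ((d : ℝ) + 1) ^ 3 := by
    rw [Real.exp_neg, one_div]
    congr 1
    rw [show (3 : ℝ) * Real.log ((d : ℝ) + 1) = Real.log (((d : ℝ) + 1) ^ 3) by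
      rw [Real.log_pow]; norm_num, Real.exp_log (by positivity)]
  have h2 : Real.log (4 * d + 1) ≤ 4 * d := by
    have := Real.log_le_sub_one_of_pos (show (0 : ℝ) < 4 * d + 1 by positivity)
    linarith
  rw [h1, mul_one_div, div_le_one (by positivity)]
  calc 17 * (d : ℝ) * Real.log (4 * d + 1) ≤ 17 * d * (4 * d) := by gcongr
    _ = 68 * d * d := by ring
    _ ≤ (d + 1) * (d + 1) * (d + 1) := by
        have : (68 : ℝ) ≤ d + 1 := by linarith
        have h4 : (d : ℝ) ≤ d + 1 := by linarith
        gcongr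
    _ = _ := by ring

/-- **Main theorem.** -/
theorem result (d : ℕ) (hd : 2 ≤ d) (K : Set (Sp d)) (hK : IsSymmBody K) :
    -- cube-like images of an almost proportional dimension
    (∀ n : ℕ, 1 ≤ n → (5 * ratio K) ^ n ≤ 2 ^ d →
      CoveredByFewer K ∨ HasCubicImage K n (1 / (9 * ratio K))) ∧
    -- cube-like images without the isotropic constant
    (∀ n : ℕ, 1 ≤ n → 10 ^ 18 * (n : ℝ) ^ 4 * Real.log (d + 1) ^ 10 ≤ d →
      CoveredByFewer K ∨ HasCubicImage K n (1 / (4 * 10 ^ 9 * Real.log (d + 1) ^ 6))) ∧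
    -- finite cotype
    (∀ q C : ℝ, 2 ≤ q → HasCotype K q C →
      ((10 ^ 12 * C * Real.log (d + 1) ^ 8) ^ (4 * q) ≤ d ∨
        3 * (120 * C * ratio K * Real.log (d + 1)) ^ q * Real.log (5 * ratio K) ≤ d) →
      CoveredByFewer K) := by
  classical
  obtain ⟨hK1, hK2, hK3, hK4⟩ := hK
  obtain ⟨p, hcont, hball, hgau, hV0, hint⟩ :=
    Pool.Agent.J4H21.FL.exists_seminorm hK1 hK2 hK3 hK4
  have hmem : ∀ y, p y ≤ 1 ↔ y ∈ K := by
    intro y
    rw [← hball]
    exact Iff.rfl
  have h0 : volume {y : Sp d | p y ≤ 1} ≠ 0 := by rw [hball]; exact hV0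
  have hcomp : IsCompact {y : Sp d | p y ≤ 1} := by rw [hball]; exact hK2
  have hVt : volume K ≠ ⊤ := hK2.measure_lt_top.ne
  have hd' : (2 : ℝ) ≤ d := by exact_mod_cast hd
  have hL1 : 1 ≤ Real.log ((d : ℝ) + 1) := by
    rw [Real.le_log_iff_exp_le (by positivity)]
    have := Real.exp_one_lt_d9
    linarith
  set ℓ := Real.log ((d : ℝ) + 1) with hℓ
  have hℓ0 : 0 < ℓ := by linarith
  have hVr : 0 < (volume K).toReal := ENNReal.toReal_pos hV0 hVt
  have hiso0 : 0 ≤ isoConst K := by unfold isoConst; positivity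
  have hR0 : 0 ≤ ratio K := by unfold ratio; positivity
  have hRd : ratio K ^ d = (10 ^ 8 * ℓ ^ 5) ^ d * √(covDet K) / (volume K).toReal := by
    unfold ratio isoConst
    rw [mul_pow, ← Real.rpow_natCast (_ ^ (1 / (d : ℝ))) d, ← Real.rpow_mul (by positivity),
      one_div_mul_cancel (by positivity), Real.rpow_one]
    ring
  -- the parallelotope
  have hU : ¬ CoveredByFewer K → ∃ U : Sp d ≃L[ℝ] Sp d, (∀ y i, |U y i| ≤ p y) ∧ 1 ≤ ratio K ∧
      volume {y : Sp d | ∀ i, |U y i| ≤ 1}
        ≤ ENNReal.ofReal (ratio K ^ d) * volume {y : Sp d | p y ≤ 1} := by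
    intro hnc
    have hnot : ¬ Pool.Agent.J4H21.FL.Good p (5 * ℓ) := by
      intro hg
      apply hnc
      obtain ⟨T, hT1, hT2⟩ := Pool.Agent.J4H21.FL.good_cover p hball hint _ hg
      exact ⟨T, hT1, Pool.Agent.J4H21.FL.strict_of_bound hd _ _ hT2 (saving5 d hd)⟩
    obtain ⟨U, h1, h2⟩ := Pool.Agent.J4H21.SC.para_gen hd p hcont h0 hcomp.measure_lt_top.ne
      hcomp (5 * ℓ) (by linarith) hnot
    have h3 : volume {y : Sp d | ∀ i, |U y i| ≤ 1}
        ≤ ENNReal.ofReal (ratio K ^ d) * volume {y : Sp d | p y ≤ 1} := by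
      rw [hball] at h2 ⊢
      refine h2.trans (le_of_eq ?_)
      rw [← ENNReal.ofReal_toReal hVt, ← ENNReal.ofReal_mul (by positivity), hRd,
        div_mul_cancel₀ _ hVr.ne']
      congr 2
      rw [← hℓ]
      ring
    refine ⟨U, h1, ?_, h3⟩
    have h4 : volume {y : Sp d | p y ≤ 1} ≤ volume {y : Sp d | ∀ i, |U y i| ≤ 1} :=
      measure_mono fun y hy i => (h1 y i).trans hy
    have h5 := h4.trans h3
    have h6 : (1 : ENNReal) ≤ ENNReal.ofReal (ratio K ^ d) := by
      by_contra hlt
      rw [not_le] at hlt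
      have h7 : ENNReal.ofReal (ratio K ^ d) * volume {y : Sp d | p y ≤ 1}
          < 1 * volume {y : Sp d | p y ≤ 1} :=
        ENNReal.mul_lt_mul_left h0 hcomp.measure_lt_top.ne hlt
      rw [one_mul] at h7
      exact absurd h5 (not_le.2 h7)
    rw [ENNReal.one_le_ofReal] at h6
    by_contra hlt
    rw [not_le] at hlt
    exact absurd h6 (not_le.2 (pow_lt_one₀ hR0 hlt (by omega)))
  have hcub : ∀ n : ℕ, ∀ κ : ℝ, (∃ T : Sp d →L[ℝ] Sp n,
      (∀ y : Sp n, (∀ i, |y i| ≤ κ) → y ∈ T '' {y : Sp d | p y ≤ 1}) ∧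
      ∀ x, p x ≤ 1 → ∀ i, |T x i| ≤ 1) → HasCubicImage K n κ := by
    rintro n κ ⟨T, h1, h2⟩
    rw [hball] at h1
    exact ⟨T, h1, fun x hx => h2 x ((hmem x).2 hx)⟩
  have hcot1 : ∀ q C : ℝ, 2 ≤ q → HasCotype K q C → 1 ≤ C ∧
      ∀ (m : ℕ) (x : Fin m → Sp d), (∑ i, p (x i) ^ q) ^ (1 / q)
      ≤ C * √((∑ δ : Fin m → Bool, p (∑ i, Pool.Agent.N555.RZ.sg (δ i) • x i) ^ 2) / 2 ^ m) := by
    intro q C hq hcot
    have h1 : ∀ (m : ℕ) (x : Fin m → Sp d), (∑ i, p (x i) ^ q) ^ (1 / q)
        ≤ C * √((∑ δ : Fin m → Bool, p (∑ i, Pool.Agent.N555.RZ.sg (δ i) • x i) ^ 2) / 2 ^ m) := by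
      intro m x
      have h2 := hcot m x
      unfold signMean at h2
      simp only [← hgau] at h2
      exact h2
    refine ⟨?_, h1⟩
    obtain ⟨x₀, hx₀⟩ : ∃ x₀ : Sp d, 0 < p x₀ := by
      by_contra hno
      push Not at hno
      have : Nonempty (Fin d) := ⟨⟨0, by omega⟩⟩
      have : NoncompactSpace (Sp d) := NormedSpace.noncompactSpace ℝ (Sp d)
      apply hcomp.ne_univ
      ext y
      simp only [Set.mem_setOf_eq, Set.mem_univ, iff_true]
      linarith [hno y]
    have h2 := h1 1 fun _ => x₀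
    have h3 : ∀ b : Bool, p (Pool.Agent.N555.RZ.sg b • x₀) = p x₀ := by
      intro b
      rw [map_smul_eq_mul, Real.norm_eq_abs, Pool.Agent.N555.RZ.sg_abs, one_mul]
    simp only [Finset.univ_unique, Finset.sum_singleton, h3] at h2
    rw [Finset.sum_const, Finset.card_univ, Fintype.card_fun, Fintype.card_bool, Fintype.card_fin,
      ← Real.rpow_mul hx₀.le, mul_one_div_cancel (by linarith), Real.rpow_one, nsmul_eq_mul] at h2
    rw [show (((2 ^ 1 : ℕ) : ℝ) * p x₀ ^ 2) / 2 ^ 1 = p x₀ ^ 2 by push_cast; ring,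
      Real.sqrt_sq hx₀.le] at h2
    by_contra hlt
    rw [not_le] at hlt
    nlinarith
  have hA : ∀ n : ℕ, 1 ≤ n → (5 * ratio K) ^ n ≤ 2 ^ d →
      CoveredByFewer K ∨ HasCubicImage K n (1 / (9 * ratio K)) := by
    intro n hn hc
    by_cases hcov : CoveredByFewer K
    · exact Or.inl hcov
    · obtain ⟨U, h1, h2, h3⟩ := hU hcov
      exact Or.inr (hcub n _ (Pool.Agent.J4H21.CO.cubic_vol (by omega) p hcomp U h1 (ratio K) h2 h3
        n hn hc))
  refine ⟨hA, fun n hn hc => ?_, fun q C hq hcot hc => ?_⟩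
  · by_cases hg : Pool.Agent.J4H21.FL.Good p (3 * ℓ)
    · left
      obtain ⟨T, hT1, hT2⟩ := Pool.Agent.J4H21.FL.good_cover p hball hint _ hg
      refine ⟨T, hT1, Pool.Agent.J4H21.FL.strict_of_bound hd _ _ hT2 (saving3 d ?_)⟩
      have h1 : (67 : ℝ) ≤ d := by
        refine le_trans ?_ hc
        have a1 : (1 : ℝ) ≤ n := by exact_mod_cast hn
        calc (67 : ℝ) ≤ 10 ^ 18 * 1 ^ 4 * 1 ^ 10 := by norm_num
          _ ≤ _ := by gcongr
      exact_mod_cast h1
    · right
      have h1 := Pool.Agent.J4H21.CO.cubic_gen hd p hcont h0 hcomp (3 * ℓ) (by linarith) hg n hn (by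
        refine le_trans ?_ hc
        rw [← hℓ]
        have a1 : 0 ≤ (n : ℝ) ^ 4 * ℓ ^ 10 := by positivity
        calc 64 * 10 ^ 14 * (n : ℝ) ^ 4 * (3 * ℓ) ^ 4 * ℓ ^ 6
            = (64 * 10 ^ 14 * 81) * ((n : ℝ) ^ 4 * ℓ ^ 10) := by ring
          _ ≤ 10 ^ 18 * ((n : ℝ) ^ 4 * ℓ ^ 10) :=
              mul_le_mul_of_nonneg_right (by norm_num) a1
          _ = _ := by ring)
      obtain ⟨T, h2, h3⟩ := h1
      refine hcub n _ ⟨T, fun y hy => h2 y fun i => (hy i).trans ?_, h3⟩
      rw [← hℓ]
      refine one_div_le_one_div_of_le (by positivity) ?_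
      calc 35 * 10 ^ 7 * (3 * ℓ) ^ 2 * ℓ ^ 4 = (35 * 10 ^ 7 * 9) * ℓ ^ 6 := by ring
        _ ≤ 4 * 10 ^ 9 * ℓ ^ 6 := mul_le_mul_of_nonneg_right (by norm_num) (by positivity)
  · obtain ⟨hC, hcot'⟩ := hcot1 q C hq hcot
    have hq0 : 0 < q := by linarith
    have hC0 : 0 < C := by linarith
    rcases hc with hc | hc
    · have hg := Pool.Agent.J4H21.CO.cotype_gen hd p hcont h0 hcomp (3 * ℓ) (by linarith) q C hq hC
        hcot' (by
          refine le_trans (Real.rpow_le_rpow (by positivity) ?_ (by positivity)) hc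
          rw [← hℓ]
          have a1 : 0 ≤ C * ℓ ^ 8 := by positivity
          calc 2 * 10 ^ 10 * C * (3 * ℓ) ^ 3 * ℓ ^ 5 = (2 * 10 ^ 10 * 27) * (C * ℓ ^ 8) := by ring
            _ ≤ 10 ^ 12 * (C * ℓ ^ 8) := mul_le_mul_of_nonneg_right (by norm_num) a1
            _ = _ := by ring)
      obtain ⟨T, hT1, hT2⟩ := Pool.Agent.J4H21.FL.good_cover p hball hint _ hg
      refine ⟨T, hT1, Pool.Agent.J4H21.FL.strict_of_bound hd _ _ hT2 (saving3 d ?_)⟩
      have h1 : (67 : ℝ) ≤ d := by
        refine le_trans ?_ hc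
        have a2 : (1 : ℝ) ≤ ℓ ^ 8 := one_le_pow₀ hL1
        have a3 : (10 : ℝ) ^ 12 ≤ 10 ^ 12 * C * ℓ ^ 8 := by
          calc (10 : ℝ) ^ 12 = 10 ^ 12 * 1 * 1 := by norm_num
            _ ≤ _ := by gcongr
        calc (67 : ℝ) ≤ ((10 : ℝ) ^ 12) ^ (1 : ℝ) := by rw [Real.rpow_one]; norm_num
          _ ≤ ((10 : ℝ) ^ 12) ^ (4 * q) := by
              apply Real.rpow_le_rpow_of_exponent_le (by norm_num)
              linarith
          _ ≤ _ := Real.rpow_le_rpow (by positivity) a3 (by positivity)
      exact_mod_cast h1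
    · by_contra hcov
      obtain ⟨U, h1, h2, h3⟩ := hU hcov
      set R := ratio K with hRdef
      have hR0 : 0 < R := by linarith
      have hX0 : 0 < 117 * C * R * ℓ := by positivity
      have hCRl : 1 ≤ C * R * ℓ := by
        calc (1 : ℝ) = 1 * 1 * 1 := by norm_num
          _ ≤ _ := by gcongr
      set X : ℝ := 117 * C * R * ℓ with hX
      set Y : ℝ := (120 * C * R * ℓ) ^ q with hY
      have hX1 : 1 ≤ X := by rw [hX]; nlinarith
      have hXq : X ^ q ≤ 0.951 * Y := by
        have e1 : X = (117 / 120) * (120 * C * R * ℓ) := by rw [hX]; ring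
        have e2 : ((117 : ℝ) / 120) ^ q ≤ (117 / 120) ^ (2 : ℝ) :=
          Real.rpow_le_rpow_of_exponent_ge (by norm_num) (by norm_num) hq
        have e3 : ((117 : ℝ) / 120) ^ (2 : ℝ) ≤ 0.951 := by
          rw [show (2 : ℝ) = ((2 : ℕ) : ℝ) by norm_num, Real.rpow_natCast]
          norm_num
        rw [e1, Real.mul_rpow (by norm_num) (by positivity), hY]
        exact mul_le_mul_of_nonneg_right (e2.trans e3) (by positivity)
      have hY1 : 14400 ≤ Y := by
        calc (14400 : ℝ) = 120 ^ (2 : ℝ) := by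
              rw [show (2 : ℝ) = ((2 : ℕ) : ℝ) by norm_num, Real.rpow_natCast]
              norm_num
          _ ≤ 120 ^ q := Real.rpow_le_rpow_of_exponent_le (by norm_num) hq
          _ ≤ Y := by
              rw [hY]
              apply Real.rpow_le_rpow (by norm_num) _ hq0.le
              calc (120 : ℝ) = 120 * 1 := by norm_num
                _ ≤ 120 * (C * R * ℓ) := by gcongr
                _ = _ := by ring
      have hlog5 : 1 ≤ Real.log (5 * R) := by
        rw [Real.le_log_iff_exp_le (by positivity)]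
        have := Real.exp_one_lt_d9
        linarith
      set n := ⌊X ^ q⌋₊ + 1 with hn
      have hnX : X ^ q < n := by
        rw [hn]
        push_cast
        exact Nat.lt_floor_add_one _
      have hnY : (n : ℝ) ≤ Y := by
        have e1 : (n : ℝ) ≤ X ^ q + 1 := by
          rw [hn]
          push_cast
          have := Nat.floor_le (show 0 ≤ X ^ q by positivity)
          linarith
        linarith
      have hn1 : 1 ≤ n := by omega
      have hdn : (5 * R) ^ n ≤ 2 ^ d := by
        rw [← Real.log_le_log_iff (by positivity) (by positivity), Real.log_pow, Real.log_pow]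
        have e1 : (n : ℝ) * Real.log (5 * R) ≤ Y * Real.log (5 * R) := by gcongr
        have e2 := Real.log_two_gt_d9
        have e3 : (d : ℝ) * (1 / 3) ≤ d * Real.log 2 := by
          gcongr
          linarith
        linarith
      have hd100 : 100 ≤ d := by
        have e1 : (100 : ℝ) ≤ d := by
          refine le_trans ?_ hc
          calc (100 : ℝ) ≤ 3 * 14400 * 1 := by norm_num
            _ ≤ _ := by gcongr
        exact_mod_cast e1
      obtain ⟨T, h4, h5⟩ := Pool.Agent.J4H21.CO.cubic_vol (by omega) p hcomp U h1 R h2 h3 n hn1 hdn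
      have h6 := Pool.Agent.J4H21.CO.cotype_cubic hd100 p hcont h0 hcomp n (1 / (9 * R))
        (by positivity) T h4 h5 q C hq0 hC0.le hcot'
      have h7 : X < (n : ℝ) ^ (1 / q) := by
        have e1 : X = (X ^ q) ^ (1 / q) := by
          rw [← Real.rpow_mul hX0.le, mul_one_div_cancel hq0.ne', Real.rpow_one]
        rw [e1]
        exact Real.rpow_lt_rpow (by positivity) hnX (by positivity)
      have h8 : X * (1 / (9 * R)) < (n : ℝ) ^ (1 / q) * (1 / (9 * R)) := by gcongr
      have h9 : X * (1 / (9 * R)) = C * (13 * ℓ) := by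
        rw [hX]
        field_simp
        ring
      rw [← hℓ] at h6
      linarith

end Pool.Agent.Results.MP_eba1ef_gt.CubeLikeImages
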