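import Mathlib
import Pool.Agent.J4H21.Center

set_option autoImplicit false

/-!
# MP_eba1ef_gt: symmetric convex bodies need at most `C d 2^d` translates

Let `K` be a convex body in `ℝ^d`, `c` a point, and let `Δ` be such that
`|K| ≤ Δ |K ∩ (2c - K)|`. Then `K` is covered by at most
`300 d 2^d (1 + log (1 + log Δ))` translates of its interior. In particular, for `Δ = 1`,
every centrally symmetric convex body is covered by at most `300 d 2^d` translates of its
interior: Rogers' bound (1957) for these bodies is `2^d (d log d + d log log d + 5 d)`, and the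
factor `d log d` is replaced by `O(d)`.

The proof. Let `c = 0`, `S = K ∩ (-K)` and `g(x) = 2^d |K ∩ (x - K)| / |S|` for `x ∈ K`.
By the Brunn-Minkowski inequality `g ^ (1/d)` is concave on `K`, and
`g(x) ^ (1/d) ≥ 1 + (|S_x| / |S|) ^ (1/d)`, `S_x = (K - x) ∩ (x - K)`. A point `x` of a
`1/(2d)`-net of `K` lies in `t + (1 - 1/d) K` for a random `t ∈ K` with probability at least
`2^(-d) g(x) / (4 Δ)`, so the greedy procedure is expensive only on the points with small `g(x)`.

The main point is that there are few of these: for `b ≥ 2` a `1/(2d)`-separated set of points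
with `g ^ (1/d) ≤ 1 + (b - 2)/d` has at most `(2d+1) (23040 e b^3)^d` elements (`count_bad`),
while the whole net may have `(4d)^d`. For such `x`, let `y = (1 - 1/d) x`. The set of the points
`z` of `K` with `g(z) ^ (1/d) > 1 + b/d` is convex and does not contain `y`; so a functional
`ψ` of `K°` separates it from `y`, with `ψ(y) ≥ 1 - 2b/d`. Let `P_x` be the part of `K°` on which
`θ(x) ≥ 1 - 4b/d`. Then `{v : |θ(v)| ≤ 1 for θ in P_x}` is contained in `d S_y`, and
`|S_y| ≤ (b/d)^d |S|`; so by the inequalities of Bourgain-Milman and Santalo the polar of this set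
has volume at least `(8eb)^(-d) |K°|`, and by Rogers-Shephard `|P_x|` is at least
`(64eb)^(-d) |K°| / (2d+1)`. All functionals of `Θ_x = (P_x + 8b ψ)/(1 + 8b)` cut off from `K` caps
which contain `x` and consist of points with `g ^ (1/d) ≤ 1 + b/d`. By averaging over `K°`, one
functional `μ` lies in `Θ_x` for the fraction `(576 e b^2)^(-d) / (2d+1)` of the points `x`; the
caps cut off by `μ` are nested, so these points lie in one convex set of bad points, whose volume
is at most `(2b/d)^d |S|`, and a packing argument bounds their number by `(40b)^d`.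
-/

namespace Pool.Agent.Results.MP_eba1ef_gt.LinearFactor

open MeasureTheory

/-- **Main theorem.** If `|K| ≤ Δ |K ∩ (2c - K)|`, then `K ⊆ ℝ^d` is covered by at most
`300 d 2^d (1 + log (1 + log Δ))` translates of its interior. -/
theorem result :
    ∀ d : ℕ, 1 ≤ d → ∀ K : Set (EuclideanSpace ℝ (Fin d)), Convex ℝ K → IsCompact K →
      (interior K).Nonempty → ∀ (c : EuclideanSpace ℝ (Fin d)) (Δ : ℝ),
      volume K ≤ ENNReal.ofReal Δ * volume (K ∩ {z | (2 : ℝ) • c - z ∈ K}) →
      ∃ T : Finset (EuclideanSpace ℝ (Fin d)), K ⊆ ⋃ t ∈ T, (fun x => t + x) '' interior K ∧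
        (T.card : ℝ) ≤ 300 * d * 2 ^ d * (1 + Real.log (1 + Real.log Δ)) :=
  fun _ hd _ hv hc hi c Δ hΔ => Pool.Agent.J4H21.cover_center hd hv hc hi c Δ hΔ

end Pool.Agent.Results.MP_eba1ef_gt.LinearFactor
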