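import Mathlib
import Pool.Agent.J4H21.SC.Para

set_option autoImplicit false

/-!
# MP_eba1ef_gt: an uncovered symmetric body lies in a parallelotope of small volume

Let `K` be a centrally symmetric convex body in `ℝ^d`, `d ≥ 2`. There are no other conditions.
We prove: either `K` is covered by less than `2^d` translates of its interior, or `K` lies in a
parallelotope `Q` with

`|Q| ≤ (10^8 log(d+1)^5)^d √(det Cov K)`.

Here `Cov K` is the covariance matrix of `K`; `√(det Cov K) = L_K^d |K|` with the isotropic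
constant `L_K`, which is bounded by the (now proved) slicing conjecture, a fact that we do
not use. So every symmetric body, which is a counterexample to the conjecture of Levi and Hadwiger,
has nearly the minimal volume ratio with respect to parallelotopes: `(|Q|/|K|)^(1/d)` is at most
polylogarithmic in `d`, while it can be of the order `√d` (for the ball).

If `K` contains an ellipsoid `A(B)`, `B` the unit ball, then `|Q| ≥ 2^d |det A|` by Hadamard's
inequality. So if the volume ratio of `K` is at most `c √d / (L_K log(d)^5)` then `K`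
is covered by less than `2^d` translates of its interior; recall that the volume ratio of every
symmetric body is at most that of the cube, which is of order `√d` (Ball). So the conjecture (with
strict inequality) holds for all symmetric bodies in `ℝ^d`, `d ≥ d_0`, but for those the volume
ratio of which is maximal up to a factor polylogarithmic in `d`.

There is a version with a parameter `λ`: one can have `1 + 12 d log(4d+1) 2^d e^(-λ)` translates or
`|Q| ≤ (4·10^6 λ² log(d+1)^3)^d √(det Cov K)`.

The proof. Let `K` be in isotropic position, `g` its norm, `P` the orthogonal projection onto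
a `k`-dimensional subspace `F`. Let `u` be uniform in `K`, and suppose `E |φ(P u)| ≤ η` for
every `φ` in the polar body `K°` and that `K` is not covered. We use a random walk
`z_l = α (u_l + z_(l-1))` (`u_l` independent, uniform in a subset of `K` not covered by few
slabs) of length about `log d`, which stays in `K`, while
the linear map `(1-s) Id + t P` with `t = 24 j² λ / k` has a large determinant and takes the walk
out of `K`. So there is a step `l` such that the norming functional `φ` of a point close to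
`z_(l-1) + t P u_l` has `φ(P u_l) ≥ c/(j t)`. The distribution of `z_(l-1)` has a density bounded
by `D^(l-1)` where `log D` is of order `λ + log d`, but the probability of the event is at most
`exp(-c / (t d η))` since linear functionals have exponential tails on `K`. So
`η ≥ c (k/d) / (λ² log(d)^3)`. Hence `F` contains a unit vector `x`, such that
`φ(y) = φ(x) ⟨x, y⟩` on `F` and `φ(x) ≥ c (k/d)/(λ² log(d)^3)` for some `φ ∈ K°`.
Applied to the orthogonal complements of the previous vectors this gives an orthonormal basis `x_i`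
and `φ_i ∈ K°` with a triangular matrix `φ_i(x_l)`, the determinant of which is
`∏ φ_i(x_i) ≥ (c / (λ² log(d)^3))^d`, and `Q = {|φ_i| ≤ 1}`.
-/

namespace Pool.Agent.Results.MP_eba1ef_gt.Parallelotope

open MeasureTheory

/-- The space `ℝ^d`. -/
abbrev Sp (d : ℕ) : Type := EuclideanSpace ℝ (Fin d)

/-- `K` is a centrally symmetric convex body. -/
def IsSymmBody {d : ℕ} (K : Set (Sp d)) : Prop :=
  Convex ℝ K ∧ IsCompact K ∧ (interior K).Nonempty ∧ ∀ x ∈ K, -x ∈ K

/-- `K` is covered by at most `N` translates of its interior. -/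
def CoveredBy {d : ℕ} (K : Set (Sp d)) (N : ℝ) : Prop :=
  ∃ T : Finset (Sp d), K ⊆ ⋃ t ∈ T, (fun x => t + x) '' interior K ∧ (T.card : ℝ) ≤ N

/-- `K` is covered by less than `2^d` translates of its interior. -/
def CoveredByFewer {d : ℕ} (K : Set (Sp d)) : Prop :=
  ∃ T : Finset (Sp d), K ⊆ ⋃ t ∈ T, (fun x => t + x) '' interior K ∧ T.card < 2 ^ d

/-- The determinant of the covariance matrix of `K`: the entries of the matrix are the averages
over `z ∈ K` of `z_i z_l`. -/
noncomputable def covDet {d : ℕ} (K : Set (Sp d)) : ℝ :=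
  Matrix.det (Matrix.of fun i l : Fin d => ⨍ z in K, z i * z l)

/-- `K` lies in a parallelotope `{x | |(Ux)_i| ≤ 1 for all i}` of a volume at most `V`, where `U`
is an invertible linear map. -/
def InParallelotope {d : ℕ} (K : Set (Sp d)) (V : ℝ) : Prop :=
  ∃ U : Sp d ≃L[ℝ] Sp d, K ⊆ {x | ∀ i, |U x i| ≤ 1} ∧
    volume {x : Sp d | ∀ i, |U x i| ≤ 1} ≤ ENNReal.ofReal V

theorem saving5 (d : ℕ) (hd : 2 ≤ d) :
    17 * (d : ℝ) * Real.log (4 * d + 1) * Real.exp (-(5 * Real.log (d + 1))) ≤ 1 := by
  have hd' : (2 : ℝ) ≤ d := by exact_mod_cast hd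
  have h1 : Real.exp (-(5 * Real.log ((d : ℝ) + 1))) = 1 / ((d : ℝ) + 1) ^ 5 := by
    rw [Real.exp_neg, one_div]
    congr 1
    rw [show (5 : ℝ) * Real.log ((d : ℝ) + 1) = Real.log (((d : ℝ) + 1) ^ 5) by
      rw [Real.log_pow]; norm_num, Real.exp_log (by positivity)]
  have h2 : Real.log (4 * d + 1) ≤ 4 / 3 * (d + 1) := by
    have e1 : Real.log (4 * d + 1) = Real.log ((4 * d + 1) / 3) + Real.log 3 := by
      rw [← Real.log_mul (by positivity) (by norm_num)]
      congr 1
      ring
    have e2 := Real.log_le_sub_one_of_pos (show (0 : ℝ) < (4 * d + 1) / 3 by positivity)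
    have e3 : Real.log 3 ≤ 2 := by
      have := Real.log_le_sub_one_of_pos (show (0 : ℝ) < 3 by norm_num)
      linarith
    rw [e1]
    linarith
  have h3 : (27 : ℝ) ≤ (d + 1) ^ 3 := by
    calc (27 : ℝ) = (2 + 1) ^ 3 := by norm_num
      _ ≤ _ := by gcongr
  rw [h1, mul_one_div, div_le_one (by positivity)]
  calc 17 * (d : ℝ) * Real.log (4 * d + 1) ≤ 17 * d * (4 / 3 * (d + 1)) := by gcongr
    _ ≤ 27 * (d + 1) * (d + 1) := by nlinarith
    _ ≤ (d + 1) ^ 3 * (d + 1) * (d + 1) := by gcongr
    _ = _ := by ring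

/-- **Main theorem.** -/
theorem result (d : ℕ) (hd : 2 ≤ d) (K : Set (Sp d)) (hK : IsSymmBody K) :
    (CoveredByFewer K ∨ InParallelotope K ((10 ^ 8 * Real.log (d + 1) ^ 5) ^ d * √(covDet K))) ∧
    (∀ lam : ℝ, 1 ≤ lam →
      CoveredBy K (1 + 12 * d * Real.log (4 * d + 1) * 2 ^ d * Real.exp (-lam)) ∨
      InParallelotope K
        ((4 * 10 ^ 6 * lam ^ 2 * Real.log (d + 1) ^ 3) ^ d * √(covDet K))) ∧
    ∀ A : Sp d →ₗ[ℝ] Sp d, (∀ x, ‖x‖ ≤ 1 → A x ∈ K) →
      (10 ^ 8 * Real.log (d + 1) ^ 5) ^ d * √(covDet K) < 2 ^ d * |LinearMap.det A| →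
      CoveredByFewer K := by
  classical
  obtain ⟨hK1, hK2, hK3, hK4⟩ := hK
  obtain ⟨p, hcont, hball, -, hV0, hint⟩ :=
    Pool.Agent.J4H21.FL.exists_seminorm hK1 hK2 hK3 hK4
  have hmem : ∀ y, p y ≤ 1 ↔ y ∈ K := by
    intro y
    rw [← hball]
    exact Iff.rfl
  have h0 : volume {y : Sp d | p y ≤ 1} ≠ 0 := by rw [hball]; exact hV0
  have hcomp : IsCompact {y : Sp d | p y ≤ 1} := by rw [hball]; exact hK2
  have hd' : (2 : ℝ) ≤ d := by exact_mod_cast hd
  have hL1 : 1 ≤ Real.log ((d : ℝ) + 1) := by
    rw [Real.le_log_iff_exp_le (by positivity)]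
    have := Real.exp_one_lt_d9
    linarith
  have hmain : ∀ lam : ℝ, 1 ≤ lam → ¬ Pool.Agent.J4H21.FL.Good p lam →
      InParallelotope K ((4 * 10 ^ 6 * lam ^ 2 * Real.log (d + 1) ^ 3) ^ d * √(covDet K)) := by
    intro lam hlam hnot
    obtain ⟨U, h1, h2⟩ := Pool.Agent.J4H21.SC.para_gen hd p hcont h0 hcomp.measure_lt_top.ne
      hcomp lam hlam hnot
    rw [hball] at h2
    exact ⟨U, fun x hx i => (h1 x i).trans ((hmem x).2 hx), h2⟩
  have hstrict : CoveredByFewer K ∨
      InParallelotope K ((10 ^ 8 * Real.log (d + 1) ^ 5) ^ d * √(covDet K)) := by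
    by_cases hg : Pool.Agent.J4H21.FL.Good p (5 * Real.log (d + 1))
    · left
      obtain ⟨T, hT1, hT2⟩ := Pool.Agent.J4H21.FL.good_cover p hball hint _ hg
      exact ⟨T, hT1, Pool.Agent.J4H21.FL.strict_of_bound hd _ _ hT2 (saving5 d hd)⟩
    · right
      obtain ⟨U, h1, h2⟩ := hmain _ (by linarith) hg
      refine ⟨U, h1, h2.trans (ENNReal.ofReal_le_ofReal ?_)⟩
      have e1 : 4 * 10 ^ 6 * (5 * Real.log ((d : ℝ) + 1)) ^ 2 * Real.log (d + 1) ^ 3
          = 10 ^ 8 * Real.log (d + 1) ^ 5 := by ring
      rw [e1]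
  refine ⟨hstrict, fun lam hlam => ?_, fun A hA hlt => ?_⟩
  · by_cases hg : Pool.Agent.J4H21.FL.Good p lam
    · left
      obtain ⟨T, hT1, hT2⟩ := Pool.Agent.J4H21.FL.good_cover p hball hint _ hg
      exact ⟨T, hT1, hT2⟩
    · right
      exact hmain lam hlam hg
  · rcases hstrict with h | ⟨U, h1, h2⟩
    · exact h
    · exfalso
      have h3 := Pool.Agent.J4H21.SC.ellipsoid_vol (by omega) U A fun x hx i => h1 (hA x hx) i
      have h4 := h3.trans h2
      rw [ENNReal.ofReal_le_ofReal_iff (by positivity)] at h4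
      linarith

end Pool.Agent.Results.MP_eba1ef_gt.Parallelotope
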