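import Pool.Agent.J4H48.RS.All2

set_option autoImplicit false

/-!
# MP_eba1ef_gt: random central sections of cubes

Let `c(K)` be the least number of translates of the interior of the convex body `K ⊂ ℝ^d` which
cover `K`. Let `F` be a random linear subspace of `ℝ^N` of dimension `d`, with the uniform
distribution. The section `[-1,1]^N ∩ F` of the cube is a centrally symmetric polytope with (at most)
`N` pairs of facets. If `g_1, ..., g_N` are independent standard Gaussian vectors of `ℝ^d`, then
`x ↦ (⟪g_i, x⟫)_i` maps `K_g = {x | |⟪g_i, x⟫| ≤ 1 for all i}` linearly onto such a section.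

For `N = d` the section is a parallelotope, and `c = 2^d`. It is proved that in all other cases, for
all `N > d`, the covering conjecture holds, strictly, with probability close to `1`:

* there is `c > 0` such that for all large `d` and ALL `N > d`, with `m = min (N - d) d`,
  `c(K_g) ≤ 2^d · d^(-c) · exp (- c m)`, except with probability at most `d^(-c) · exp (- c m)`;
* for all `ε > 0` there is `C` such that for all large `d` and all `N ≥ C d`,
  `c(K_g) ≤ (1 + ε)^d`, except with probability at most `ε^d`.

Proof. Let `y = (⟪g_i, x⟫)_i` for a vertex `x`, and let `τ ∈ {-1,1}^N` be the sign vector of `y`.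
The direction `-x` (or minus the sum of all vertices with the same sign vector) illuminates all
vertices with the sign vector `τ`. Now `τ` is near the subspace `F`, since `d` coordinates of `y` are
`±1`; if the codimension `k = N - d` is at most `d^(1/4)`, then the distance is at most
`k · max |P e_i|`, where `P` is the projection to the orthogonal complement of `F`, and only few sign
vectors are so near `F`: their number is about `2^N · (C k (k + log N) / N)^(k/2)`.

If `k ≥ d^(1/4)`, let `λ_i = |e_i - P e_i|^2` (the leverage scores). They are `≥ m = 1 - O(k/N)`, and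
`∑ λ_i = d`; the ellipsoid `{y ∈ F | a ∑ λ_i y_i^2 ≤ 1}` is contained in the cube, for
`a = (1 + m)^2/(4m) = 1 + O((k/N)^2)`. A vertex with `∑ (1 - y_i^2) ≥ k/81` has
`a ∑ λ_i y_i^2 ≤ d - k/324` (if `k ≤ 10^(-5) d`), and such vertices are illuminated by
`d^4 · 2^d · exp (-k/1300)` directions, by the covering theorem for simple vertices at a bounded
distance (starting result `SimplePolytopes`, library `TH84.HC`). The other vertices have at most
`2^d · exp (-k/2)` sign vectors, since these are at distance at most `(k/81)^(1/2)` from `F`.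

If `k ≥ 10^(-5) d`, the ellipsoid is `{y ∈ F | t |y|^2 ≤ 1}`, `t = (1 + ε) d/N`, and the vertices
with `∑ (1 - y_i^2) ≤ β N` are counted directly. All probabilities are computed from the invariance
of the law of `g` under the orthogonal group of the index space `ℝ^N`.
-/

open MeasureTheory ProbabilityTheory
open scoped RealInnerProductSpace

namespace Pool.Agent.Results.MP_eba1ef_gt.RandomSections

/-- `ℝ^n`. -/
abbrev E (n : ℕ) := EuclideanSpace ℝ (Fin n)

/-- The law of `N` independent standard Gaussian vectors of `ℝ^d`. -/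
noncomputable def Law (d N : ℕ) : Measure (Fin N → E d) := Measure.pi fun _ => stdGaussian (E d)

/-- The symmetric polytope `{x | |⟪g_i, x⟫| ≤ 1 for all i}`, linearly equivalent to the section of
the cube `[-1,1]^N` by the subspace of all `(⟪g_i, x⟫)_i`. -/
def Sec {d N : ℕ} (g : Fin N → E d) : Set (E d) := {x | ∀ i, |⟪g i, x⟫| ≤ 1}

/-- `K` is a convex body (compact, convex, with interior points) which is covered by at most `y`
translates of its interior. -/
def Covered {d : ℕ} (y : ℝ) (K : Set (E d)) : Prop :=
  (Convex ℝ K ∧ IsCompact K ∧ (interior K).Nonempty) ∧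
    ∃ T : Finset (E d), (T.card : ℝ) ≤ y ∧ K ⊆ ⋃ t ∈ T, (fun x => t + x) '' interior K

/-- **Random central sections of cubes.** -/
theorem result :
    -- all `N > d`: strictly fewer than `2 ^ d` translates
    (∃ c : ℝ, 0 < c ∧ ∃ d₀ : ℕ, ∀ d : ℕ, d₀ ≤ d → ∀ N : ℕ, d < N →
      Law d N {g | ¬ Covered (2 ^ d * (d : ℝ) ^ (-c) * Real.exp (-(c * min ((N : ℝ) - d) d)))
        (Sec g)} ≤ ENNReal.ofReal ((d : ℝ) ^ (-c) * Real.exp (-(c * min ((N : ℝ) - d) d)))) ∧
    -- `N ≥ C d`: at most `(1 + ε) ^ d` translates
    (∀ ε : ℝ, 0 < ε → ∃ C d₀ : ℕ, ∀ d : ℕ, d₀ ≤ d → ∀ N : ℕ, C * d ≤ N →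
      Law d N {g | ¬ Covered ((1 + ε) ^ d) (Sec g)} ≤ ENNReal.ofReal (ε ^ d)) := by
  constructor
  · obtain ⟨c, hc, d₀, h⟩ := Pool.Agent.J4H48.RS.all_sections
    refine ⟨c, hc, max d₀ 1, fun d hd N hN => ?_⟩
    have hd1 : 1 ≤ d := (le_max_right _ _).trans hd
    have hd0 : (0:ℝ) < d := by exact_mod_cast hd1
    have e : (d : ℝ) ^ (-c) * Real.exp (-(c * min ((N : ℝ) - d) d)) =
        Real.exp (-(c * (Real.log d + min ((N : ℝ) - d) d))) := by
      rw [Real.rpow_def_of_pos hd0, ← Real.exp_add]
      congr 1
      ring
    rw [mul_assoc, e]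
    exact h d ((le_max_left _ _).trans hd) N hN
  · intro ε hε
    obtain ⟨C, d₀, h⟩ := Pool.Agent.J4H48.RP.many_one ε hε
    refine ⟨C, d₀, fun d hd N hN => ?_⟩
    have h1 := h d hd N hN {1, -1} Pool.Agent.J4H48.RS.hSpm (by simp)
    have e : ∀ g : Fin N → E d, Sec g = Pool.Agent.J4H48.RP.Poly {1, -1} (fun _ => 1) g :=
      fun g => Pool.Agent.J4H48.RS.sec_eq g
    simp only [e]
    exact h1

end Pool.Agent.Results.MP_eba1ef_gt.RandomSections
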